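import Pool.Agent.VLF.Stmts

/-!
VLF, row NEW (Newton expansion), by helper5.
-/

namespace Pool.Agent.VLF.H5

open Pool.Agent.VLF Finset

theorem dlt_eq : dlt = fwdDiff (1 : ℕ) := by
  funext f x
  rfl

/-- row NEW -/
theorem new : NewStmt := by
  intro f x
  have h := shift_eq_sum_fwdDiff_iter (1 : ℕ) f x 0
  have e : (0 : ℕ) + x • (1 : ℕ) = x := by simp
  rw [e] at h
  rw [h]
  refine Finset.sum_congr rfl fun j _ => ?_
  rw [dlt_eq, nsmul_eq_mul]

end Pool.Agent.VLF.H5
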